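import Pool.Agent.Lib.MP_931187_co.Main

/-!
# Asymptotic forms
-/

set_option autoImplicit false

namespace Pool.Agent.Lib.MP_931187_co

open Finset Filter Topology

/-- exponential moment bound for the number of equations -/
theorem eqns_le {b D L : ℕ} (hb : 1 ≤ b) {z : ℝ} (hz0 : 0 < z) (hz1 : z ≤ 1) :
    (eqns b D L : ℝ) * z ^ D ≤ (1 + (b - 1) * z) ^ L := by
  have hb1 : ((b - 1 : ℕ) : ℝ) = (b : ℝ) - 1 := by push_cast [hb]; ring
  have hb0 : (0 : ℝ) ≤ (b : ℝ) - 1 := by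
    have : (1 : ℝ) ≤ b := by exact_mod_cast hb
    linarith
  rw [eqns, Nat.cast_sum, sum_mul, add_comm (1 : ℝ), add_pow]
  have h1 : ∀ j ∈ Icc 1 D, ((L.choose j * (b - 1) ^ j : ℕ) : ℝ) * z ^ D ≤
      ((b - 1) * z) ^ j * 1 ^ (L - j) * (L.choose j : ℝ) := by
    intro j hj
    rw [Nat.cast_mul, Nat.cast_pow, hb1, one_pow, mul_one, mul_pow]
    have h2 : z ^ D ≤ z ^ j := pow_le_pow_of_le_one hz0.le hz1 (mem_Icc.1 hj).2
    calc (L.choose j : ℝ) * (b - 1) ^ j * z ^ D ≤ (L.choose j : ℝ) * (b - 1) ^ j * z ^ j :=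
          mul_le_mul_of_nonneg_left h2 (by positivity)
      _ = (b - 1) ^ j * z ^ j * (L.choose j : ℝ) := by ring
  refine (sum_le_sum h1).trans ?_
  have h3 : ∀ j ∈ Icc 1 D, j ∉ range (L + 1) →
      ((b - 1) * z) ^ j * 1 ^ (L - j) * (L.choose j : ℝ) = 0 := by
    intro j _ hj
    rw [Nat.choose_eq_zero_of_lt (by simpa using hj)]
    simp
  rw [← sum_filter_add_sum_filter_not (Icc 1 D) (fun j => j ∈ range (L + 1)),
    sum_eq_zero (s := (Icc 1 D).filter fun j => j ∉ range (L + 1)) fun j hj =>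
      h3 j (mem_filter.1 hj).1 (mem_filter.1 hj).2, add_zero]
  exact sum_le_sum_of_subset_of_nonneg (fun j hj => (mem_filter.1 hj).2)
    fun j _ _ => by positivity

/-- the rate is below `b` -/
theorem exists_rate {b : ℕ} (hb : 2 ≤ b) {α : ℝ} (h0 : 0 ≤ α) (hα : α < 1 - 1 / b) :
    ∃ ρ : ℝ, 0 < ρ ∧ ρ < b ∧ ∀ D L : ℕ, (D : ℝ) ≤ α * L → (eqns b D L : ℝ) ≤ ρ ^ L := by
  have hbR : (2 : ℝ) ≤ b := by exact_mod_cast hb
  set β : ℝ := 1 - 1 / b with hβ
  have hβ0 : 0 < β := lt_of_le_of_lt h0 hα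
  have hbβ : (b : ℝ) * β = b - 1 := by rw [hβ]; field_simp
  set z : ℝ := (α + β) / (2 * β) with hz
  have hz0 : 0 < z := by positivity
  have hz1 : z < 1 := by rw [hz, div_lt_one (by positivity)]; linarith
  have hβz : β * z = (α + β) / 2 := by rw [hz]; field_simp
  refine ⟨z ^ (-α) * (1 + (b - 1) * z), by
    have : (0 : ℝ) ≤ (b - 1) * z := mul_nonneg (by linarith) hz0.le
    positivity, ?_, fun D L hD => ?_⟩
  · have h1 : 1 + ((b : ℝ) - 1) * z = b * (1 - β * (1 - z)) := by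
      rw [← hbβ]
      have : (b : ℝ) * β = b - 1 := hbβ
      nlinarith [this]
    have h2 : z ^ (-α) ≤ Real.exp (α * (z⁻¹ - 1)) := by
      rw [Real.rpow_def_of_pos hz0]
      refine Real.exp_le_exp.2 ?_
      have := Real.one_sub_inv_le_log_of_pos hz0
      nlinarith
    have h3 : 1 - β * (1 - z) ≤ Real.exp (-(β * (1 - z))) := by
      have := Real.add_one_le_exp (-(β * (1 - z)))
      linarith
    have h30 : 0 < 1 - β * (1 - z) := by
      have : β ≤ 1 := by
        rw [hβ]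
        have : (0 : ℝ) ≤ 1 / b := by positivity
        linarith
      nlinarith
    have h4 : Real.exp (α * (z⁻¹ - 1)) * Real.exp (-(β * (1 - z))) < 1 := by
      rw [← Real.exp_add, Real.exp_lt_one_iff]
      have e : α * (z⁻¹ - 1) + -(β * (1 - z)) = (1 - z) * (α - β * z) / z := by
        field_simp; ring
      rw [e]
      refine div_neg_of_neg_of_pos (mul_neg_of_pos_of_neg (by linarith) ?_) hz0
      rw [hβz]; linarith
    rw [h1]
    calc z ^ (-α) * (b * (1 - β * (1 - z))) = b * (z ^ (-α) * (1 - β * (1 - z))) := by ring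
      _ ≤ b * (Real.exp (α * (z⁻¹ - 1)) * Real.exp (-(β * (1 - z)))) := by
          refine mul_le_mul_of_nonneg_left (mul_le_mul h2 h3 h30.le (Real.exp_pos _).le)
            (by positivity)
      _ < b * 1 := mul_lt_mul_of_pos_left h4 (by positivity)
      _ = b := mul_one _
  · have h1 := eqns_le (b := b) (D := D) (L := L) (by omega) hz0 hz1.le
    rw [mul_pow, ← Real.rpow_natCast (z ^ (-α)) L, ← Real.rpow_mul hz0.le]
    have h2 : z ^ (α * (L : ℝ)) ≤ z ^ D := by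
      rw [← Real.rpow_natCast z D]
      exact Real.rpow_le_rpow_of_exponent_ge hz0 hz1.le hD
    have h3 : z ^ (-α * (L : ℝ)) * z ^ (α * (L : ℝ)) = 1 := by
      rw [← Real.rpow_add hz0]; simp
    have h4 : 0 < z ^ (-α * (L : ℝ)) := Real.rpow_pos_of_pos hz0 _
    calc (eqns b D L : ℝ) = eqns b D L * (z ^ (-α * (L : ℝ)) * z ^ (α * (L : ℝ))) := by
          rw [h3, mul_one]
      _ = z ^ (-α * (L : ℝ)) * (eqns b D L * z ^ (α * (L : ℝ))) := by ring
      _ ≤ z ^ (-α * (L : ℝ)) * (eqns b D L * z ^ D) := by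
          refine mul_le_mul_of_nonneg_left (mul_le_mul_of_nonneg_left h2 (by positivity)) h4.le
      _ ≤ z ^ (-α * (L : ℝ)) * (1 + (b - 1) * z) ^ L := mul_le_mul_of_nonneg_left h1 h4.le

/-- **Degree a small multiple of `log n`.** -/
theorem mono_log (p : ℕ) [Fact p.Prime] {b : ℕ} (hb : 2 ≤ b) {α C : ℝ} (h0 : 0 ≤ α)
    (hα : α < 1 - 1 / b) (hC : 1 < C) : ∃ n₀ : ℕ, ∀ n ≥ n₀, ∀ N D : ℕ,
      (D : ℝ) ≤ α * Real.logb b n → C ^ n ≤ (N : ℝ) → ∀ χ : ℕ → Bool,
        DigitColouring b D p N χ → HasMonoAP χ n N := by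
  obtain ⟨ρ, hρ0, hρb, hρ⟩ := exists_rate hb h0 hα
  have hbR : (2 : ℝ) ≤ b := by exact_mod_cast hb
  have hb0 : (0 : ℝ) < b := by linarith
  have hlb : 0 < Real.log b := Real.log_pos (by linarith)
  have hlC : 0 < Real.log C := Real.log_pos hC
  have t0 := tendsto_pow_const_mul_const_pow_of_abs_lt_one 0 (r := (b : ℝ)⁻¹) (by
    rw [abs_of_pos (by positivity)]; exact inv_lt_one_of_one_lt₀ (by linarith))
  have t1 := tendsto_pow_const_mul_const_pow_of_abs_lt_one 1 (r := (b : ℝ)⁻¹) (by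
    rw [abs_of_pos (by positivity)]; exact inv_lt_one_of_one_lt₀ (by linarith))
  have t2 := tendsto_pow_const_mul_const_pow_of_abs_lt_one 2 (r := ρ / b) (by
    rw [abs_of_pos (by positivity), div_lt_one hb0]; exact hρb)
  have t := ((t0.const_mul (Real.log 2)).add (t2.const_mul (((p - 1 : ℕ) : ℝ) * Real.log b))).add
    (t1.const_mul (Real.log b))
  simp only [mul_zero, add_zero] at t
  obtain ⟨L₀, hL₀⟩ := eventually_atTop.1 (t.eventually (gt_mem_nhds (show 0 < Real.log C / b by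
    positivity)))
  refine ⟨b ^ L₀ + 2, fun n hn N D hD hN χ hχ => ?_⟩
  set L := Nat.clog b n with hL
  have hn2 : 2 ≤ n := by omega
  have hnL : n ≤ b ^ L := Nat.le_pow_clog (by omega) n
  have hLL : L₀ < L := by
    rw [hL, Nat.lt_clog_iff_pow_lt (by omega)]; omega
  have hLn : b ^ (L - 1) < n := Nat.pow_pred_clog_lt_self (by omega) (by omega)
  have hDL : (D : ℝ) ≤ α * L := by
    refine hD.trans (mul_le_mul_of_nonneg_left ?_ h0)
    rw [Real.logb, div_le_iff₀ hlb, ← Real.log_pow]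
    exact Real.log_le_log (by positivity) (by exact_mod_cast hnL)
  have hE := hρ D L hDL
  have hα1 : α ≤ 1 := by
    have : (0 : ℝ) ≤ 1 / b := by positivity
    linarith
  have hDL' : (D : ℝ) ≤ L := hDL.trans (by nlinarith [Nat.cast_nonneg (α := ℝ) L])
  refine mono_of_degree hb hnL (Nat.lt_succ_self ((p - 1) * D * eqns b D L)) ?_ hχ
  have key := hL₀ L hLL.le
  have hK : (((p - 1) * D * eqns b D L + 1 : ℕ) : ℝ) * L ≤
      ((p - 1 : ℕ) : ℝ) * (L ^ 2 * ρ ^ L) + L := by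
    rw [Nat.cast_add, Nat.cast_mul, Nat.cast_mul, Nat.cast_one]
    have h1 : ((p - 1 : ℕ) : ℝ) * D * eqns b D L ≤ ((p - 1 : ℕ) : ℝ) * L * ρ ^ L :=
      mul_le_mul (mul_le_mul_of_nonneg_left hDL' (by positivity)) hE (by positivity)
        (by positivity)
    nlinarith [mul_le_mul_of_nonneg_right h1 (Nat.cast_nonneg (α := ℝ) L)]
  have hpow : (b : ℝ) ^ L = b * b ^ (L - 1) := by
    rw [← pow_succ']; congr 1; omega
  have h5 : Real.log 2 + (((p - 1 : ℕ) : ℝ) * (L ^ 2 * ρ ^ L) + L) * Real.log b ≤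
      n * Real.log C := by
    have h6 : Real.log 2 + (((p - 1 : ℕ) : ℝ) * (L ^ 2 * ρ ^ L) + L) * Real.log b =
        (Real.log 2 * ((L : ℝ) ^ 0 * (b : ℝ)⁻¹ ^ L) +
          ((p - 1 : ℕ) : ℝ) * Real.log b * ((L : ℝ) ^ 2 * (ρ / b) ^ L) +
          Real.log b * ((L : ℝ) ^ 1 * (b : ℝ)⁻¹ ^ L)) * b ^ L := by
      rw [div_pow, inv_pow]; field_simp; ring
    rw [h6]
    calc _ ≤ Real.log C / b * (b : ℝ) ^ L :=
          mul_le_mul_of_nonneg_right key.le (by positivity)
      _ = Real.log C * b ^ (L - 1) := by rw [hpow]; field_simp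
      _ ≤ Real.log C * n := mul_le_mul_of_nonneg_left (by exact_mod_cast hLn.le) hlC.le
      _ = n * Real.log C := mul_comm _ _
  have h7 : ((2 * b ^ (((p - 1) * D * eqns b D L + 1) * L) : ℕ) : ℝ) ≤ C ^ n := by
    rw [← Real.log_le_log_iff (by positivity) (by positivity), Real.log_pow, Nat.cast_mul,
      Nat.cast_pow, Real.log_mul (by norm_num) (by positivity), Real.log_pow, Nat.cast_mul]
    refine le_trans ?_ h5
    have := mul_le_mul_of_nonneg_right hK hlb.le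
    norm_num at this ⊢
    linarith
  exact_mod_cast h7.trans hN

/-- **Fixed degree.** -/
theorem mono_fixed (p : ℕ) [Fact p.Prime] {b : ℕ} (hb : 2 ≤ b) (D : ℕ) : ∃ C : ℝ,
    ∀ n : ℕ, 2 ≤ n → ∀ N : ℕ, Real.exp (C * Real.log n ^ (D + 1)) ≤ (N : ℝ) → ∀ χ : ℕ → Bool,
        DigitColouring b D p N χ → HasMonoAP χ n N := by
  have hbR : (2 : ℝ) ≤ b := by exact_mod_cast hb
  have hb0 : (0 : ℝ) < b := by linarith
  have hlb : 0 < Real.log b := Real.log_pos (by linarith)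
  have hl2 : 0 < Real.log 2 := Real.log_pos (by norm_num)
  set c₁ : ℕ := (p - 1) * D * (D * b ^ D) + 1 with hc₁
  set c₂ : ℝ := 1 / Real.log b + 1 / Real.log 2 with hc₂
  have hc₂0 : 0 < c₂ := by positivity
  refine ⟨2 * c₁ * Real.log b * c₂ ^ (D + 1), fun n hn2 N hN χ hχ => ?_⟩
  set L := Nat.clog b n with hL
  have hnL : n ≤ b ^ L := Nat.le_pow_clog (by omega) n
  have hL1 : 1 ≤ L := Nat.clog_pos (by omega) (by omega)
  have hLn : b ^ (L - 1) < n := Nat.pow_pred_clog_lt_self (by omega) (by omega)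
  have hn0 : (0 : ℝ) < n := by positivity
  have hln : Real.log 2 ≤ Real.log n := Real.log_le_log (by norm_num) (by exact_mod_cast hn2)
  have hLc : (L : ℝ) ≤ c₂ * Real.log n := by
    have h1 : ((L - 1 : ℕ) : ℝ) * Real.log b ≤ Real.log n := by
      rw [← Real.log_pow]
      exact Real.log_le_log (by positivity) (by exact_mod_cast hLn.le)
    have h2 : ((L - 1 : ℕ) : ℝ) = L - 1 := by push_cast [hL1]; ring
    rw [h2] at h1
    have h3 : (L : ℝ) - 1 ≤ Real.log n / Real.log b := by rwa [le_div_iff₀ hlb]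
    have h4 : 1 ≤ Real.log n / Real.log 2 := by rwa [le_div_iff₀ hl2, one_mul]
    rw [hc₂]
    have e : (1 / Real.log b + 1 / Real.log 2) * Real.log n =
      Real.log n / Real.log b + Real.log n / Real.log 2 := by ring
    rw [e]; linarith
  have hE : eqns b D L ≤ D * (L * b) ^ D := by
    rw [eqns]
    refine (sum_le_card_nsmul _ _ ((L * b) ^ D) fun j hj => ?_).trans ?_
    · calc L.choose j * (b - 1) ^ j ≤ L ^ j * b ^ j :=
            Nat.mul_le_mul (Nat.choose_le_pow L j) (Nat.pow_le_pow_left (by omega) _)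
        _ = (L * b) ^ j := (mul_pow _ _ _).symm
        _ ≤ (L * b) ^ D := Nat.pow_le_pow_right (Nat.mul_pos (by omega) (by omega))
            (mem_Icc.1 hj).2
    · rw [Nat.card_Icc, smul_eq_mul]; simp
  have hK : ((p - 1) * D * eqns b D L + 1) * L ≤ c₁ * L ^ (D + 1) := by
    have h1 : (p - 1) * D * eqns b D L + 1 ≤ c₁ * L ^ D := by
      calc (p - 1) * D * eqns b D L + 1 ≤ (p - 1) * D * (D * (L * b) ^ D) + 1 := by
            have := Nat.mul_le_mul_left ((p - 1) * D) hE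
            omega
        _ = (p - 1) * D * (D * b ^ D) * L ^ D + 1 := by rw [mul_pow]; ring
        _ ≤ (p - 1) * D * (D * b ^ D) * L ^ D + 1 * L ^ D := by
            have := Nat.one_le_pow D L (by omega)
            omega
        _ = c₁ * L ^ D := by rw [hc₁]; ring
    calc _ ≤ c₁ * L ^ D * L := Nat.mul_le_mul_right _ h1
      _ = c₁ * L ^ (D + 1) := by rw [pow_succ]; ring
  refine mono_of_degree hb hnL (Nat.lt_succ_self ((p - 1) * D * eqns b D L)) ?_ hχ
  have hone : 1 ≤ c₁ * L ^ (D + 1) := Nat.mul_pos (by omega) (Nat.pow_pos (by omega))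
  have h1 : 2 * b ^ (((p - 1) * D * eqns b D L + 1) * L) ≤ b ^ (2 * (c₁ * L ^ (D + 1))) := by
    calc 2 * b ^ (((p - 1) * D * eqns b D L + 1) * L) ≤ b * b ^ (c₁ * L ^ (D + 1)) :=
          Nat.mul_le_mul hb (Nat.pow_le_pow_right (by omega) hK)
      _ = b ^ (c₁ * L ^ (D + 1) + 1) := (pow_succ' _ _).symm
      _ ≤ b ^ (2 * (c₁ * L ^ (D + 1))) := Nat.pow_le_pow_right (by omega) (by omega)
  refine h1.trans ?_
  have h2 : ((b ^ (2 * (c₁ * L ^ (D + 1))) : ℕ) : ℝ) ≤
      Real.exp (2 * c₁ * Real.log b * c₂ ^ (D + 1) * Real.log n ^ (D + 1)) := by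
    rw [Nat.cast_pow, ← Real.exp_log (x := (b : ℝ) ^ (2 * (c₁ * L ^ (D + 1)))) (by positivity),
      Real.log_pow]
    refine Real.exp_le_exp.2 ?_
    push_cast
    have h3 : (L : ℝ) ^ (D + 1) ≤ (c₂ * Real.log n) ^ (D + 1) :=
      pow_le_pow_left₀ (by positivity) hLc _
    rw [mul_pow] at h3
    calc 2 * ((c₁ : ℝ) * L ^ (D + 1)) * Real.log b = 2 * c₁ * Real.log b * L ^ (D + 1) := by ring
      _ ≤ 2 * c₁ * Real.log b * (c₂ ^ (D + 1) * Real.log n ^ (D + 1)) :=
          mul_le_mul_of_nonneg_left h3 (by positivity)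
      _ = _ := by ring
  exact_mod_cast h2.trans hN

end Pool.Agent.Lib.MP_931187_co
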