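import Pool.Agent.Lib.MP_931187_co.Digit

/-!
# A common zero from the Chevalley-Warning theorem
-/

set_option autoImplicit false

namespace Pool.Agent.Lib.MP_931187_co

open Finset

variable {b L K D p : ℕ} [NeZero b]

/-- alternating sum over the restrictions of `w` to the subsets of `U` -/
def alt (Q : ℕ → ZMod p) (w : Fin L → Fin b) (U : Finset (Fin L)) (B : Finset (Fin K)) :
    ZMod p := mob (fun V => Q (pt (rst w V) B)) U

/-- the places of the nonzero entries -/
def spt (w : Fin L → Fin b) : Finset (Fin L) := univ.filter fun l => w l ≠ 0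

theorem rst_univ (w : Fin L → Fin b) : rst w univ = w := by
  funext l; simp [rst]

theorem rst_rst (w : Fin L → Fin b) {U V : Finset (Fin L)} (h : V ⊆ U) :
    rst (rst w U) V = rst w V := by
  funext l
  unfold rst
  split_ifs with h1 h2
  · rfl
  · exact absurd (h h1) h2
  · rfl

theorem small_alt (hb : 2 ≤ b) {Q : ℕ → ZMod p} (hQ : LowDegree b D p Q) (w : Fin L → Fin b)
    (U : Finset (Fin L)) : Small D (fun B : Finset (Fin K) => alt Q w U B) := by
  obtain ⟨r, g, hg, hQ⟩ := hQ
  have h1 : ∀ V : Finset (Fin L), Small D (fun B : Finset (Fin K) => Q (pt (rst w V) B)) := by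
    intro V
    simp only [hQ]
    refine Small.sum fun i _ => ?_
    obtain ⟨A, P, -, hP, -, h⟩ := few_pt (L := L) (K := K) hb (hg i)
    exact small_of_few P hP fun j hj B => h _ B j hj
  simp only [alt, mob]
  exact Small.sum fun V _ => Small.mul _ (h1 V)

theorem alt_zero_of_card (hb : 2 ≤ b) {Q : ℕ → ZMod p} (hQ : LowDegree b D p Q)
    (w : Fin L → Fin b) {U : Finset (Fin L)} (hU : D < U.card) (B : Finset (Fin K)) :
    alt Q w U B = 0 := by
  obtain ⟨r, g, hg, hQ⟩ := hQ
  have h1 : Small D (fun V : Finset (Fin L) => Q (pt (rst w V) B)) := by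
    simp only [hQ]
    refine Small.sum fun i _ => ?_
    obtain ⟨A, P, hA, -, h, -⟩ := few_pt (L := L) (K := K) hb (hg i)
    exact small_of_few A hA fun j hj V => h w V B j hj
  exact h1 U hU

theorem alt_zero_of_entry (Q : ℕ → ZMod p) (w : Fin L → Fin b) {U : Finset (Fin L)} {l : Fin L}
    (hl : l ∈ U) (h0 : w l = 0) (B : Finset (Fin K)) : alt Q w U B = 0 := by
  refine mob_eq_zero _ hl fun V => ?_
  have : rst w (insert l V) = rst w V := by
    funext j
    unfold rst
    by_cases hj : j = l
    · subst hj; simp [h0]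
    · simp [mem_insert, hj]
  rw [this]

theorem alt_rst (Q : ℕ → ZMod p) (w : Fin L → Fin b) (U : Finset (Fin L))
    (B : Finset (Fin K)) : alt Q (rst w U) U B = alt Q w U B := by
  unfold alt mob
  refine sum_congr rfl fun V hV => ?_
  change _ * Q (pt (rst (rst w U) V) B) = _ * Q (pt (rst w V) B)
  rw [rst_rst w (mem_powerset.1 hV)]

theorem alt_empty_set (Q : ℕ → ZMod p) (w : Fin L → Fin b) {U : Finset (Fin L)}
    (hU : U.Nonempty) : alt Q w U (∅ : Finset (Fin K)) = 0 := by
  obtain ⟨l, hl⟩ := hU
  exact mob_eq_zero _ hl fun V => by simp [pt, dif]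

theorem alt_empty (Q : ℕ → ZMod p) (w : Fin L → Fin b) (B : Finset (Fin K)) :
    alt Q w ∅ B = Q (b ^ (K * L)) := by
  rw [alt, mob_empty]
  have : num (rst w ∅) = 0 := by simp [num, rst]
  rw [pt, this, Nat.zero_mul, Nat.add_zero]

/-- the value at `pt w B` as a sum over supports -/
theorem sum_alt (Q : ℕ → ZMod p) (w : Fin L → Fin b) (B : Finset (Fin K)) :
    Q (pt w B) = ∑ V ∈ (univ : Finset (Fin L)).powerset, alt Q w V B := by
  have := sum_mob (fun V => Q (pt (rst w V) B)) (univ : Finset (Fin L))
  rw [rst_univ] at this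
  exact this.symm

variable [Fact p.Prime]

open MvPolynomial

/-- the polynomial of a function of degree at most `D` on the subsets of `Fin K` -/
noncomputable def poly (D : ℕ) (F : Finset (Fin K) → ZMod p) : MvPolynomial (Fin K) (ZMod p) :=
  ∑ V ∈ (univ : Finset (Fin K)).powerset with V.card ≤ D,
    C (mob F V) * ∏ k ∈ V, (X k : MvPolynomial (Fin K) (ZMod p)) ^ (p - 1)

/-- the places where `s` is not zero -/
def nz (s : Fin K → ZMod p) : Finset (Fin K) := univ.filter fun k => s k ≠ 0

theorem eval_poly {F : Finset (Fin K) → ZMod p} (hF : Small D F) (s : Fin K → ZMod p) :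
    eval s (poly D F) = F (nz s) := by
  have hp : p - 1 ≠ 0 := by have := (Fact.out : p.Prime).two_le; omega
  rw [poly, map_sum, ← hF.sum_eq]
  have h1 : ∀ V : Finset (Fin K), eval s (C (mob F V) *
      ∏ k ∈ V, (X k : MvPolynomial (Fin K) (ZMod p)) ^ (p - 1)) =
      if V ⊆ nz s then mob F V else 0 := by
    intro V
    rw [map_mul, eval_C, map_prod]
    simp only [map_pow, eval_X]
    split_ifs with h
    · rw [prod_eq_one fun k hk => ?_, mul_one]
      exact ZMod.pow_card_sub_one_eq_one (mem_filter.1 (h hk)).2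
    · obtain ⟨k, hk, hk'⟩ := not_subset.1 h
      have : s k = 0 := by
        by_contra hc; exact hk' (mem_filter.2 ⟨mem_univ _, hc⟩)
      rw [prod_eq_zero hk (by rw [this, zero_pow hp]), mul_zero]
  rw [sum_congr rfl fun V _ => h1 V, ← sum_filter]
  refine sum_congr ?_ fun _ _ => rfl
  ext V
  simp only [mem_filter, mem_powerset, subset_univ, true_and]
  exact and_comm

theorem totalDegree_poly (F : Finset (Fin K) → ZMod p) :
    (poly D F).totalDegree ≤ (p - 1) * D := by
  refine totalDegree_finsetSum_le fun V hV => ?_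
  refine (totalDegree_mul _ _).trans ?_
  rw [totalDegree_C, zero_add]
  refine (totalDegree_finsetProd _ _).trans ?_
  refine (sum_le_card_nsmul V _ (p - 1) fun k _ => ?_).trans ?_
  · refine (totalDegree_pow _ _).trans ?_
    rw [totalDegree_X, mul_one]
  · rw [smul_eq_mul, mul_comm]
    exact Nat.mul_le_mul_left _ (mem_filter.1 hV).2

/-- the index set of the equations -/
def idx (b L D : ℕ) [NeZero b] : Finset (Fin L → Fin b) :=
  univ.filter fun w => 1 ≤ (spt w).card ∧ (spt w).card ≤ D

theorem card_spt (b L : ℕ) [NeZero b] (R : Finset (Fin L)) :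
    ((univ : Finset (Fin L → Fin b)).filter fun w => spt w = R).card = (b - 1) ^ R.card := by
  have h : ((univ : Finset (Fin L → Fin b)).filter fun w => spt w = R) =
      Fintype.piFinset fun l => if l ∈ R then univ.erase (0 : Fin b) else {0} := by
    ext w
    simp only [mem_filter, mem_univ, true_and, Fintype.mem_piFinset]
    constructor
    · rintro rfl l
      by_cases hl : w l = 0
      · simp [spt, hl]
      · simp [spt, hl]
    · intro hw
      ext l
      have := hw l
      by_cases hl : l ∈ R
      · simp only [hl, if_true, mem_erase, mem_univ, and_true] at this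
        simp [spt, this, hl]
      · simp only [hl, if_false, mem_singleton] at this
        simp [spt, this, hl]
  rw [h, Fintype.card_piFinset]
  have h2 : ∀ l : Fin L, (if l ∈ R then univ.erase (0 : Fin b) else {0}).card =
      if l ∈ R then b - 1 else 1 := by
    intro l
    split_ifs
    · rw [card_erase_of_mem (mem_univ _), card_univ, Fintype.card_fin]
    · rfl
  simp only [h2]
  rw [prod_ite, prod_const, prod_const_one, mul_one]
  congr 1
  rw [filter_mem_eq_inter, univ_inter]

theorem card_idx (b L D : ℕ) [NeZero b] : (idx b L D).card = eqns b D L := by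
  have h1 : idx b L D = (univ.filter fun R : Finset (Fin L) => 1 ≤ R.card ∧ R.card ≤ D).biUnion
      fun R => univ.filter fun w => spt w = R := by
    ext w
    simp only [idx, mem_filter, mem_univ, true_and, mem_biUnion]
    constructor
    · intro h; exact ⟨_, h, rfl⟩
    · rintro ⟨R, h, rfl⟩; exact h
  rw [h1, card_biUnion]
  · simp only [card_spt]
    have h2 : (univ.filter fun R : Finset (Fin L) => 1 ≤ R.card ∧ R.card ≤ D) =
        (Icc 1 D).biUnion fun j => powersetCard j (univ : Finset (Fin L)) := by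
      ext R
      simp only [mem_filter, mem_univ, true_and, mem_biUnion, mem_Icc, mem_powersetCard,
        subset_univ]
      constructor
      · intro h; exact ⟨_, h, rfl⟩
      · rintro ⟨j, h, rfl⟩; exact h
    rw [h2, sum_biUnion, eqns]
    · refine sum_congr rfl fun j _ => ?_
      rw [sum_congr rfl fun R hR => by rw [(mem_powersetCard.1 hR).2], sum_const,
        card_powersetCard, card_univ, Fintype.card_fin, smul_eq_mul]
    · intro i _ j _ hij
      exact Finset.pairwise_disjoint_powersetCard _ hij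
  · intro R _ R' _ hne
    rw [Function.onFun, disjoint_left]
    intro w hw hw'
    exact hne ((mem_filter.1 hw).2.symm.trans (mem_filter.1 hw').2)

theorem dvd_nat_card {α : Type} {p : ℕ} (i : Fintype α) (h : p ∣ @Fintype.card α i) :
    p ∣ Nat.card α := by
  rw [@Nat.card_eq_fintype_card α i]; exact h

/-- **the main step**: a nonempty set of blocks whose progression is constant -/
theorem exists_blocks (hb : 2 ≤ b) {Q : ℕ → ZMod p} (hQ : LowDegree b D p Q)
    (hK : (p - 1) * D * eqns b D L < K) :
    ∃ B : Finset (Fin K), B.Nonempty ∧ ∀ w : Fin L → Fin b, Q (pt w B) = Q (b ^ (K * L)) := by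
  classical
  set f : (Fin L → Fin b) → MvPolynomial (Fin K) (ZMod p) :=
    fun w => poly D (fun B : Finset (Fin K) => alt Q w (spt w) B) with hf
  have hdeg : ∑ w ∈ idx b L D, (f w).totalDegree < Fintype.card (Fin K) := by
    rw [Fintype.card_fin]
    refine lt_of_le_of_lt (sum_le_card_nsmul _ _ _ fun w _ => totalDegree_poly _) ?_
    rw [card_idx, smul_eq_mul, mul_comm]
    exact hK
  have hcw := dvd_nat_card _ (char_dvd_card_solutions_of_sum_lt p hdeg)
  have hev : ∀ w s, eval s (f w) = alt Q w (spt w) (nz s) := fun w s =>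
    eval_poly (small_alt hb hQ w _) s
  have hz : ∀ w ∈ idx b L D, eval (0 : Fin K → ZMod p) (f w) = 0 := by
    intro w hw
    have e : nz (0 : Fin K → ZMod p) = ∅ := by simp [nz]
    rw [hev, e]
    exact alt_empty_set Q w (card_pos.1 (mem_filter.1 hw).2.1)
  have hone : 1 < Nat.card {x : Fin K → ZMod p // ∀ w ∈ idx b L D, eval x (f w) = 0} := by
    have : Nonempty {x : Fin K → ZMod p // ∀ w ∈ idx b L D, eval x (f w) = 0} := ⟨⟨0, hz⟩⟩
    exact lt_of_lt_of_le (Fact.out : p.Prime).one_lt (Nat.le_of_dvd Finite.card_pos hcw)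
  have : Nontrivial {x : Fin K → ZMod p // ∀ w ∈ idx b L D, eval x (f w) = 0} :=
    Finite.one_lt_card_iff_nontrivial.1 hone
  obtain ⟨⟨s, hs⟩, hne⟩ := exists_ne (⟨0, hz⟩ :
    {x : Fin K → ZMod p // ∀ w ∈ idx b L D, eval x (f w) = 0})
  have hs0 : s ≠ 0 := fun h => hne (Subtype.ext h)
  refine ⟨nz s, ?_, fun w => ?_⟩
  · obtain ⟨k, hk⟩ := Function.ne_iff.1 hs0
    exact ⟨k, mem_filter.2 ⟨mem_univ _, hk⟩⟩
  rw [sum_alt Q w (nz s), ← alt_empty Q w (nz s)]
  refine sum_eq_single ∅ (fun V _ hV => ?_) fun h => absurd (empty_mem_powerset _) h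
  rcases lt_or_ge D V.card with h | h
  · exact alt_zero_of_card hb hQ w h _
  by_cases h0 : ∃ l ∈ V, w l = 0
  · obtain ⟨l, hl, h0⟩ := h0
    exact alt_zero_of_entry Q w hl h0 _
  push Not at h0
  have e : spt (rst w V) = V := by
    ext l
    simp only [spt, mem_filter, mem_univ, true_and, rst]
    by_cases hl : l ∈ V
    · simp [hl, h0 l hl]
    · simp [hl]
  have h1 := hs (rst w V) (by
    rw [idx, mem_filter, e]
    exact ⟨mem_univ _, card_pos.2 (nonempty_iff_ne_empty.2 hV), h⟩)
  rw [hev, e, alt_rst] at h1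
  exact h1

end Pool.Agent.Lib.MP_931187_co
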