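import Mathlib

/-!
# Colourings of low digit degree: definitions
-/

set_option autoImplicit false

namespace Pool.Agent.Lib.MP_931187_co

/-- the digit of `x` at `b ^ k` in base `b` -/
def digit (b x k : ℕ) : ℕ := x / b ^ k % b

/-- `g` depends on at most `D` base `b` digits of its argument -/
def FewDigits (b D : ℕ) {α : Type} (g : ℕ → α) : Prop :=
  ∃ S : Finset ℕ, S.card ≤ D ∧ ∀ x y, (∀ k ∈ S, digit b x k = digit b y k) → g x = g y

/-- `Q` is a sum modulo `p` of functions each of which depends on at most `D` base `b` digits -/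
def LowDegree (b D p : ℕ) (Q : ℕ → ZMod p) : Prop :=
  ∃ (r : ℕ) (g : Fin r → ℕ → ZMod p), (∀ i, FewDigits b D (g i)) ∧ ∀ x, Q x = ∑ i, g i x

/-- the 2-colouring `χ` has base `b` digit degree at most `D` modulo `p` on `{1, ..., N}`: there
the colour of `x` is a function of the value `Q x`, with `Q` as in `LowDegree` -/
def DigitColouring (b D p N : ℕ) (χ : ℕ → Bool) : Prop :=
  ∃ (Q : ℕ → ZMod p) (φ : ZMod p → Bool), LowDegree b D p Q ∧
    ∀ x, 1 ≤ x → x ≤ N → χ x = φ (Q x)

/-- `{1, ..., N}` contains a monochromatic arithmetic progression with `n` terms -/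
def HasMonoAP (χ : ℕ → Bool) (n N : ℕ) : Prop :=
  ∃ a d : ℕ, 1 ≤ a ∧ 1 ≤ d ∧ a + (n - 1) * d ≤ N ∧ ∀ i < n, χ (a + i * d) = χ a

/-- the number of pairs (nonempty set of at most `D` of `L` places, nonzero base `b` digits on
it) -/
def eqns (b D L : ℕ) : ℕ := ∑ j ∈ Finset.Icc 1 D, L.choose j * (b - 1) ^ j

end Pool.Agent.Lib.MP_931187_co
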