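import Pool.Agent.Lib.MP_931187_co.Mob

/-!
# The digits of the terms of the progressions
-/

set_option autoImplicit false

namespace Pool.Agent.Lib.MP_931187_co

open Finset

theorem sum_lt {b : ℕ} {f : ℕ → ℕ} (hf : ∀ j, f j < b) (m : ℕ) :
    ∑ j ∈ range m, f j * b ^ j < b ^ m := by
  induction m with
  | zero => simp
  | succ m ih =>
    rw [sum_range_succ, pow_succ]
    have h1 : f m * b ^ m + b ^ m ≤ b ^ m * b := by
      have := hf m
      calc f m * b ^ m + b ^ m = (f m + 1) * b ^ m := by ring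
        _ ≤ b * b ^ m := Nat.mul_le_mul_right _ this
        _ = b ^ m * b := by ring
    omega

/-- the digits of a number given by its expansion -/
theorem digit_sum {b : ℕ} (hb : 2 ≤ b) {f : ℕ → ℕ} (hf : ∀ j, f j < b) {k m : ℕ} (hk : k < m)
    (c : ℕ) : digit b (b ^ m * c + ∑ j ∈ range m, f j * b ^ j) k = f k := by
  obtain ⟨r, rfl⟩ : ∃ r, m = k + (r + 1) := ⟨m - k - 1, by omega⟩
  have hb0 : 0 < b := by omega
  have e : b ^ (k + (r + 1)) * c + ∑ j ∈ range (k + (r + 1)), f j * b ^ j =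
      (∑ j ∈ range k, f j * b ^ j) +
        b ^ k * (f k + b * (b ^ r * c + ∑ j ∈ range r, f (k + (j + 1)) * b ^ j)) := by
    have h2 : ∑ j ∈ range (r + 1), f (k + j) * b ^ (k + j) =
        b ^ k * (b * ∑ j ∈ range r, f (k + (j + 1)) * b ^ j) + f k * b ^ k := by
      rw [sum_range_succ', mul_sum, mul_sum]
      exact congrArg₂ _ (sum_congr rfl fun j _ => by ring) rfl
    rw [sum_range_add, h2]
    ring
  rw [digit, e, Nat.add_mul_div_left _ _ (Nat.pow_pos hb0),
    Nat.div_eq_of_lt (sum_lt hf k), Nat.zero_add, Nat.add_mul_mod_self_left,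
    Nat.mod_eq_of_lt (hf k)]

theorem digit_high {b : ℕ} {m x y k : ℕ} (hk : m ≤ k) (h : x / b ^ m = y / b ^ m) :
    digit b x k = digit b y k := by
  obtain ⟨r, rfl⟩ : ∃ r, k = m + r := ⟨k - m, by omega⟩
  rw [digit, digit, pow_add, ← Nat.div_div_eq_div_mul, ← Nat.div_div_eq_div_mul, h]

variable {b L K : ℕ}

/-- replace the entries outside `U` by `0` -/
def rst (w : Fin L → Fin b) [NeZero b] (U : Finset (Fin L)) : Fin L → Fin b :=
  fun l => if l ∈ U then w l else 0

/-- the number with digits `w` -/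
def num (w : Fin L → Fin b) : ℕ := ∑ l : Fin L, (w l : ℕ) * b ^ (l : ℕ)

/-- the difference given by a set of blocks -/
def dif (b L : ℕ) {K : ℕ} (B : Finset (Fin K)) : ℕ := ∑ k ∈ B, b ^ ((k : ℕ) * L)

/-- the terms of the progressions -/
def pt (w : Fin L → Fin b) (B : Finset (Fin K)) : ℕ := b ^ (K * L) + num w * dif b L B

/-- the digits of `pt w B` as a function on `ℕ` -/
def fdig (w : Fin L → Fin b) (B : Finset (Fin K)) (j : ℕ) : ℕ :=
  if h : j % L < L then (if j / L ∈ B.map Fin.valEmbedding then (w ⟨j % L, h⟩ : ℕ) else 0) else 0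

theorem fdig_lt (hb : 2 ≤ b) (w : Fin L → Fin b) (B : Finset (Fin K)) (j : ℕ) :
    fdig w B j < b := by
  unfold fdig
  split_ifs
  · exact (w _).2
  · omega
  · omega

theorem sum_blocks (f : ℕ → ℕ) (L K : ℕ) :
    ∑ j ∈ range (K * L), f j = ∑ k ∈ range K, ∑ l ∈ range L, f (k * L + l) := by
  induction K with
  | zero => simp
  | succ K ih => rw [Nat.succ_mul, sum_range_add, ih, sum_range_succ]

theorem sum_fdig (w : Fin L → Fin b) (B : Finset (Fin K)) :
    ∑ j ∈ range (K * L), fdig w B j * b ^ j = num w * dif b L B := by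
  rw [sum_blocks]
  have h1 : ∀ k ∈ range K, ∑ l ∈ range L, fdig w B (k * L + l) * b ^ (k * L + l) =
      if k ∈ B.map Fin.valEmbedding then num w * b ^ (k * L) else 0 := by
    intro k _
    have h2 : ∀ l : Fin L, fdig w B (k * L + l) * b ^ (k * L + (l : ℕ)) =
        if k ∈ B.map Fin.valEmbedding then (w l : ℕ) * b ^ (l : ℕ) * b ^ (k * L) else 0 := by
      intro l
      have hL : 0 < L := lt_of_le_of_lt (Nat.zero_le _) l.2
      have e1 : (k * L + (l : ℕ)) % L = l := by
        rw [Nat.mul_comm, Nat.mul_add_mod, Nat.mod_eq_of_lt l.2]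
      have e2 : (k * L + (l : ℕ)) / L = k := by
        rw [Nat.mul_comm, Nat.mul_add_div hL, Nat.div_eq_of_lt l.2, Nat.add_zero]
      rw [fdig]
      simp only [e1, e2, l.2, dite_true, Fin.eta]
      split_ifs
      · ring
      · rw [Nat.zero_mul]
    rw [← Fin.sum_univ_eq_sum_range (fun l => fdig w B (k * L + l) * b ^ (k * L + l)) L,
      sum_congr rfl fun l _ => h2 l]
    split_ifs
    · rw [num, sum_mul]
    · exact sum_const_zero
  rw [sum_congr rfl h1, ← sum_filter, dif, mul_sum]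
  have h3 : (range K).filter (fun k => k ∈ B.map Fin.valEmbedding) = B.map Fin.valEmbedding := by
    ext k
    simp only [mem_filter, mem_range, mem_map, Fin.valEmbedding_apply]
    constructor
    · rintro ⟨_, h⟩; exact h
    · rintro ⟨x, hx, rfl⟩; exact ⟨x.2, x, hx, rfl⟩
  rw [h3, sum_map]
  rfl

theorem pt_eq (w : Fin L → Fin b) (B : Finset (Fin K)) :
    pt w B = b ^ (K * L) * 1 + ∑ j ∈ range (K * L), fdig w B j * b ^ j := by
  rw [sum_fdig, Nat.mul_one]; rfl

theorem pt_lt (hb : 2 ≤ b) (w : Fin L → Fin b) (B : Finset (Fin K)) :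
    pt w B < 2 * b ^ (K * L) := by
  have := sum_lt (fdig_lt hb w B) (K * L)
  rw [pt_eq]; omega

/-- the digits of the points below `b ^ (K * L)` -/
theorem digit_pt (hb : 2 ≤ b) (w : Fin L → Fin b) (B : Finset (Fin K)) {j : ℕ}
    (hj : j < K * L) : digit b (pt w B) j = fdig w B j := by
  rw [pt_eq, digit_sum hb (fdig_lt hb w B) hj]

theorem digit_pt_high (hb : 2 ≤ b) (w w' : Fin L → Fin b) (B B' : Finset (Fin K)) {j : ℕ}
    (hj : K * L ≤ j) : digit b (pt w B) j = digit b (pt w' B') j := by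
  refine digit_high hj ?_
  have h : ∀ (w : Fin L → Fin b) (B : Finset (Fin K)), pt w B / b ^ (K * L) = 1 := by
    intro w B
    rw [pt_eq, Nat.mul_add_div (Nat.pow_pos (by omega)),
      Nat.div_eq_of_lt (sum_lt (fdig_lt hb w B) (K * L))]
  rw [h, h]

/-- the value at `pt w B` of a function of at most `D` digits: which places matter -/
theorem few_pt [NeZero b] (hb : 2 ≤ b) {D : ℕ} {α : Type} {g : ℕ → α} (hg : FewDigits b D g) :
    ∃ (A : Finset (Fin L)) (P : Finset (Fin K)), A.card ≤ D ∧ P.card ≤ D ∧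
      (∀ (w : Fin L → Fin b) (U : Finset (Fin L)) (B : Finset (Fin K)), ∀ l ∉ A, g (pt (rst w (insert l U)) B) = g (pt (rst w U) B)) ∧
      (∀ (w : Fin L → Fin b) (B : Finset (Fin K)), ∀ k ∉ P, g (pt w (insert k B)) = g (pt w B)) := by
  obtain ⟨S, hS, hg⟩ := hg
  classical
  set S' := S.filter (fun j => j < K * L) with hS'
  have hc : S'.card ≤ D := (card_filter_le _ _).trans hS
  refine ⟨univ.filter fun l : Fin L => ∃ j ∈ S', j % L = l,
    univ.filter fun k : Fin K => ∃ j ∈ S', j / L = k, ?_, ?_, ?_, ?_⟩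
  · refine le_trans ?_ hc
    refine le_trans (le_trans (le_of_eq (card_map Fin.valEmbedding).symm) (card_le_card ?_))
      (card_image_le (s := S') (f := fun j => j % L))
    intro x hx
    obtain ⟨l, hl, rfl⟩ := mem_map.1 hx
    obtain ⟨j, hj, e⟩ := (mem_filter.1 hl).2
    exact mem_image.2 ⟨j, hj, e⟩
  · refine le_trans ?_ hc
    refine le_trans (le_trans (le_of_eq (card_map Fin.valEmbedding).symm) (card_le_card ?_))
      (card_image_le (s := S') (f := fun j => j / L))
    intro x hx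
    obtain ⟨l, hl, rfl⟩ := mem_map.1 hx
    obtain ⟨j, hj, e⟩ := (mem_filter.1 hl).2
    exact mem_image.2 ⟨j, hj, e⟩
  · intro w U B l hl
    refine hg _ _ fun j hj => ?_
    rcases lt_or_ge j (K * L) with h | h
    · rw [digit_pt hb _ _ h, digit_pt hb _ _ h]
      have hne : ∀ hh : j % L < L, (⟨j % L, hh⟩ : Fin L) ≠ l := by
        intro hh e
        exact hl (mem_filter.2 ⟨mem_univ _, j, mem_filter.2 ⟨hj, h⟩, by rw [← e]⟩)
      unfold fdig
      split_ifs with h1 h2
      · have : rst w (insert l U) ⟨j % L, h1⟩ = rst w U ⟨j % L, h1⟩ := by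
          unfold rst
          simp only [mem_insert, hne h1, false_or]
        rw [this]
      · rfl
      · rfl
    · exact digit_pt_high hb _ _ _ _ h
  · intro w B k hk
    refine hg _ _ fun j hj => ?_
    rcases lt_or_ge j (K * L) with h | h
    · rw [digit_pt hb _ _ h, digit_pt hb _ _ h]
      have hne : j / L ≠ (k : ℕ) := by
        intro e
        exact hk (mem_filter.2 ⟨mem_univ _, j, mem_filter.2 ⟨hj, h⟩, e⟩)
      have e : (j / L ∈ (insert k B).map Fin.valEmbedding) ↔ (j / L ∈ B.map Fin.valEmbedding) := by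
        rw [map_insert, mem_insert, Fin.valEmbedding_apply]
        exact ⟨fun h => h.resolve_left hne, Or.inr⟩
      unfold fdig
      simp only [e]
    · exact digit_pt_high hb _ _ _ _ h

end Pool.Agent.Lib.MP_931187_co
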