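import Pool.Agent.Lib.MP_931187_co.CW

/-!
# Monochromatic progressions in colourings of low digit degree
-/

set_option autoImplicit false

namespace Pool.Agent.Lib.MP_931187_co

open Finset

theorem sum_digits (b i m : ℕ) : ∑ l ∈ range m, (i / b ^ l % b) * b ^ l = i % b ^ m := by
  induction m with
  | zero => simp [Nat.mod_one]
  | succ m ih => rw [sum_range_succ, ih, Nat.mod_pow_succ]; ring

theorem exists_num {b L i : ℕ} (hb : 2 ≤ b) (hi : i < b ^ L) :
    ∃ w : Fin L → Fin b, num w = i := by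
  refine ⟨fun l => ⟨i / b ^ (l : ℕ) % b, Nat.mod_lt _ (by omega)⟩, ?_⟩
  have := sum_digits b i L
  rw [Nat.mod_eq_of_lt hi, ← Fin.sum_univ_eq_sum_range (fun l => i / b ^ l % b * b ^ l)] at this
  exact this

/-- **Explicit form.** -/
theorem mono_of_degree {p : ℕ} [Fact p.Prime] {b D L K n N : ℕ} {χ : ℕ → Bool} (hb : 2 ≤ b)
    (hn : n ≤ b ^ L) (hK : (p - 1) * D * eqns b D L < K) (hN : 2 * b ^ (K * L) ≤ N)
    (hχ : DigitColouring b D p N χ) : HasMonoAP χ n N := by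
  have : NeZero b := ⟨by omega⟩
  obtain ⟨Q, φ, hQ, hφ⟩ := hχ
  obtain ⟨B, hB, hc⟩ := exists_blocks (K := K) hb hQ hK
  have hpos : 1 ≤ b ^ (K * L) := Nat.one_le_pow _ _ (by omega)
  have hd : 1 ≤ dif b L B := by
    obtain ⟨k, hk⟩ := hB
    exact le_trans (Nat.one_le_pow _ _ (by omega))
      (single_le_sum (f := fun k : Fin K => b ^ ((k : ℕ) * L)) (fun _ _ => Nat.zero_le _) hk)
  have hlt : ∀ i < b ^ L, b ^ (K * L) + i * dif b L B < N ∧
      Q (b ^ (K * L) + i * dif b L B) = Q (b ^ (K * L)) := by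
    intro i hi
    obtain ⟨w, rfl⟩ := exists_num hb hi
    exact ⟨lt_of_lt_of_le (pt_lt hb w B) hN, hc w⟩
  have hbL : 0 < b ^ L := Nat.pow_pos (by omega)
  refine ⟨b ^ (K * L), dif b L B, hpos, hd, (hlt (n - 1) (by omega)).1.le, fun i hi => ?_⟩
  obtain ⟨h1, h2⟩ := hlt i (by omega)
  rw [hφ _ (by omega) h1.le, hφ _ hpos (by omega), h2]

end Pool.Agent.Lib.MP_931187_co
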