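import Pool.Agent.Lib.MP_931187_co.Defs

/-!
# Moebius inversion on finite sets
-/

set_option autoImplicit false

namespace Pool.Agent.Lib.MP_931187_co

open Finset

variable {ι R : Type} [DecidableEq ι] [CommRing R]

/-- alternating sum over the subsets -/
def mob (F : Finset ι → R) (W : Finset ι) : R :=
  ∑ V ∈ W.powerset, (-1) ^ (W \ V).card * F V

theorem mob_empty (F : Finset ι → R) : mob F ∅ = F ∅ := by
  simp [mob]

theorem mob_insert (F : Finset ι → R) {j : ι} {W : Finset ι} (hj : j ∉ W) :
    mob F (insert j W) = mob (fun V => F (insert j V)) W - mob F W := by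
  rw [mob, sum_powerset_insert hj]
  have h1 : ∑ V ∈ W.powerset, (-1 : R) ^ (insert j W \ V).card * F V = - mob F W := by
    rw [mob, ← sum_neg_distrib]
    refine sum_congr rfl fun V hV => ?_
    have hV' : j ∉ V := fun h => hj (mem_powerset.1 hV h)
    rw [insert_sdiff_of_notMem _ hV', card_insert_of_notMem (by simp [hj]), pow_succ]
    ring
  have h2 : ∑ V ∈ W.powerset, (-1 : R) ^ (insert j W \ insert j V).card * F (insert j V) =
      mob (fun V => F (insert j V)) W := by
    rw [mob]
    refine sum_congr rfl fun V hV => ?_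
    have : insert j W \ insert j V = W \ V := by
      ext x
      simp only [mem_sdiff, mem_insert, not_or]
      constructor
      · rintro ⟨h | h, h', h''⟩
        · exact absurd h h'
        · exact ⟨h, h''⟩
      · rintro ⟨h, h'⟩
        exact ⟨Or.inr h, fun e => hj (e ▸ h), h'⟩
    rw [this]
  rw [h1, h2]; ring

theorem sum_mob (F : Finset ι → R) (W : Finset ι) : ∑ V ∈ W.powerset, mob F V = F W := by
  induction W using Finset.induction_on generalizing F with
  | empty => simp [mob_empty]
  | insert j W hj ih =>
    rw [sum_powerset_insert hj, ih]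
    have : ∑ V ∈ W.powerset, mob F (insert j V) =
        ∑ V ∈ W.powerset, mob (fun V => F (insert j V)) V - ∑ V ∈ W.powerset, mob F V := by
      rw [← sum_sub_distrib]
      exact sum_congr rfl fun V hV => mob_insert F fun h => hj (mem_powerset.1 hV h)
    rw [this, ih, ih]; ring

/-- the alternating sum vanishes if an element does not matter -/
theorem mob_eq_zero (F : Finset ι → R) {j : ι} {W : Finset ι} (hj : j ∈ W)
    (h : ∀ V, F (insert j V) = F V) : mob F W = 0 := by
  rw [← insert_erase hj, mob_insert F (notMem_erase j W)]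
  simp only [h, sub_self]

theorem mob_sum {κ : Type} (s : Finset κ) (F : κ → Finset ι → R) (W : Finset ι) :
    mob (fun V => ∑ k ∈ s, F k V) W = ∑ k ∈ s, mob (F k) W := by
  simp only [mob, mul_sum]
  rw [sum_comm]

theorem mob_mul (c : R) (F : Finset ι → R) (W : Finset ι) :
    mob (fun V => c * F V) W = c * mob F W := by
  rw [mob, mob, mul_sum]
  exact sum_congr rfl fun V _ => by ring

/-- `F` has degree at most `D` -/
def Small (D : ℕ) (F : Finset ι → R) : Prop := ∀ W, D < W.card → mob F W = 0

theorem Small.sum {D : ℕ} {κ : Type} {s : Finset κ} {F : κ → Finset ι → R}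
    (h : ∀ k ∈ s, Small D (F k)) : Small D (fun V => ∑ k ∈ s, F k V) := by
  intro W hW
  rw [mob_sum]
  exact sum_eq_zero fun k hk => h k hk W hW

theorem Small.mul {D : ℕ} {F : Finset ι → R} (c : R) (h : Small D F) :
    Small D (fun V => c * F V) := by
  intro W hW
  rw [mob_mul, h W hW, mul_zero]

/-- a function that depends on at most `D` elements has degree at most `D` -/
theorem small_of_few {D : ℕ} {F : Finset ι → R} (P : Finset ι) (hP : P.card ≤ D)
    (h : ∀ j ∉ P, ∀ V, F (insert j V) = F V) : Small D F := by
  intro W hW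
  obtain ⟨j, hj, hjP⟩ : ∃ j ∈ W, j ∉ P := by
    by_contra hc
    push Not at hc
    exact absurd (card_le_card hc) (by omega)
  exact mob_eq_zero F hj (h j hjP)

theorem Small.sum_eq {D : ℕ} {F : Finset ι → R} (h : Small D F) (W : Finset ι) :
    ∑ V ∈ W.powerset with V.card ≤ D, mob F V = F W := by
  rw [← sum_mob F W, sum_filter]
  refine sum_congr rfl fun V _ => ?_
  split_ifs with hV
  · rfl
  · exact (h V (by omega)).symm

end Pool.Agent.Lib.MP_931187_co
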